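import Pool.Agent.Helper95.LN.Stmts
import Pool.Agent.Helper47.PN.REPL
import Pool.Agent.Helper49.PN.ATTL

/-!
# Row VID of the linear bound: exact form of the two virial identities
-/

set_option autoImplicit false

namespace Pool.Agent.Helper8.LN

open MeasureTheory Filter Topology
open Pool.Agent.Helper95.PW Pool.Agent.Helper14.PW Pool.Agent.Helper49.PN Pool.Agent.Helper95.LN

/-- numerator of the pair term -/
noncomputable def vs (g : R3 → ℝ) (y z : R3) : ℝ := ∑ m, (pd m g y - pd m g z) * (y m - z m)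

/-- the term of one nucleus -/
noncomputable def vt (g : R3 → ℝ) (a y : R3) : ℝ :=
  (∑ m, pd m g y * (y m - a m)) / nr (y - a) ^ 3

theorem vid_tend {n : ℕ} {k l : Fin n} {x : Cf n} (hx : nr (x k - x l) ≠ 0) :
    Tendsto (fun m : ℕ => poew k l (1 / ((m : ℝ) + 1)) x) atTop (𝓝 (1 / nr (x k - x l))) := by
  have hpos : 0 < nr (x k - x l) := lt_of_le_of_ne (poe_nr_nonneg _) (Ne.symm hx)
  unfold poew
  rw [one_div (nr (x k - x l))]
  refine Tendsto.inv₀ ?_ hx
  have h1 : Tendsto (fun m : ℕ => nr (x k - x l) ^ 2 + (1 / ((m : ℝ) + 1)) ^ 2) atTop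
      (𝓝 (nr (x k - x l) ^ 2 + 0 ^ 2)) :=
    tendsto_const_nhds.add (tendsto_one_div_add_atTop_nhds_zero_nat.pow 2)
  have h2 := h1.sqrt
  rw [show nr (x k - x l) ^ 2 + (0 : ℝ) ^ 2 = nr (x k - x l) ^ 2 by ring,
    Real.sqrt_sq hpos.le] at h2
  refine h2.congr fun m => ?_
  rw [poe_q_eq]

theorem vid_bd {n : ℕ} (k l : Fin n) (x : Cf n) {e : ℝ} (he : 0 < e) :
    0 < poew k l e x ∧ poew k l e x * nr (x k - x l) ≤ 1 := by
  have hq : 0 < poeq k l e x := poeq_pos k l he x
  have hs : 0 < √(poeq k l e x) := Real.sqrt_pos.2 hq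
  have h1 : nr (x k - x l) ≤ √(poeq k l e x) := by
    refine Real.le_sqrt_of_sq_le ?_
    rw [poe_q_eq]
    have := sq_nonneg e
    linarith
  refine ⟨inv_pos.2 hs, ?_⟩
  unfold poew
  rw [inv_mul_le_iff₀ hs, mul_one]
  exact h1

theorem vid_lip {g : R3 → ℝ} (hg : ContDiff ℝ (⊤ : ℕ∞) g) (hc : HasCompactSupport g) :
    ∃ L : ℝ, 0 ≤ L ∧ ∀ y z : R3, |vs g y z| ≤ L * nr (y - z) ^ 2 := by
  have h1 : ∀ m : Fin 3, HasCompactSupport (pd m g) := by
    intro m
    unfold pd
    exact hc.fderiv_apply (𝕜 := ℝ) _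
  have h2 : ∀ j m : Fin 3, ∃ C, ∀ y, ‖pd j (pd m g) y‖ ≤ C := by
    intro j m
    refine (pin_smpd (pin_smpd hg m) j).continuous.bounded_above_of_compact_support ?_
    have := (h1 m).fderiv_apply (𝕜 := ℝ) (Pi.single j 1)
    exact this
  choose C hC using h2
  have hC0 : ∀ j m, 0 ≤ C j m := fun j m => (norm_nonneg _).trans (hC j m 0)
  obtain ⟨K, hK⟩ : ∃ K, K = ∑ j, ∑ m, C j m := ⟨_, rfl⟩
  have hCK : ∀ j m, C j m ≤ K := by
    intro j m
    rw [hK]
    exact (Finset.single_le_sum (f := fun m => C j m) (fun m _ => hC0 j m)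
      (Finset.mem_univ m)).trans (Finset.single_le_sum (f := fun j => ∑ m, C j m)
      (fun j _ => Finset.sum_nonneg fun m _ => hC0 j m) (Finset.mem_univ j))
  have hK0 : 0 ≤ K := (hC0 0 0).trans (hCK 0 0)
  refine ⟨9 * K, by positivity, fun y z => ?_⟩
  unfold vs
  refine (Finset.abs_sum_le_sum_abs _ _).trans ?_
  calc _ ≤ ∑ _m : Fin 3, 3 * K * nr (y - z) ^ 2 := by
        refine Finset.sum_le_sum fun m _ => ?_
        rw [abs_mul]
        have a1 := poe_lip ((pin_smpd hg m).differentiable (by simp)) hK0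
          (fun j w => ((Real.norm_eq_abs _).symm.le.trans (hC j m w)).trans (hCK j m)) y z
        have a2 : |y m - z m| ≤ nr (y - z) := poe_abs_le_nr (y - z) m
        have a3 : 0 ≤ nr (y - z) := poe_nr_nonneg _
        calc |pd m g y - pd m g z| * |y m - z m| ≤ (3 * K * nr (y - z)) * nr (y - z) :=
              mul_le_mul a1 a2 (abs_nonneg _) (by positivity)
          _ = _ := by ring
    _ = 9 * K * nr (y - z) ^ 2 := by
        rw [Finset.sum_const, Finset.card_univ, Fintype.card_fin]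
        simp only [nsmul_eq_mul]
        push_cast
        ring

theorem vid_pair (h1 : ST_IBP) (h2 : ST_INT) {n : ℕ} {g : R3 → ℝ}
    (hg : ContDiff ℝ (⊤ : ℕ∞) g) (hc : HasCompactSupport g) {k l : Fin n} (hkl : k < l)
    {v : Cf n → ℝ} (hv : ContDiff ℝ (⊤ : ℕ∞) v) (hvc : HasCompactSupport v) :
    Integrable (fun x : Cf n => vs g (x k) (x l) / nr (x k - x l) ^ 3 * v x ^ 2) ∧
    ∫ x, 1 / nr (x k - x l) * (Pg g v x * v x) =
      1 / 2 * ∫ x, vs g (x k) (x l) / nr (x k - x l) ^ 3 * v x ^ 2 := by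
  obtain ⟨L, hL, hLs⟩ := vid_lip hg hc
  have hPAN : ST_PAN := Pool.Agent.Helper20.PW.st_PAN h1
  obtain ⟨hp, hpc⟩ := poe_sm Pool.Agent.Helper2.PW.st_STB hg hv hvc
  have J2 := (h2 n _ _ hp hpc hv hvc).2.1
  have J3 := (h2 n _ _ hv hvc hv hvc).2.1
  have c2 : Continuous (fun x => Pg g v x * v x) := hp.continuous.mul hv.continuous
  have c3 : Continuous (fun x => v x * v x) := hv.continuous.mul hv.continuous
  have B : Integrable (fun x : Cf n => L * (1 / nr (x k - x l) * (v x * v x))) :=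
    (poe_pi hkl c3 J3).const_mul L
  have cvs : Continuous (fun x : Cf n => vs g (x k) (x l)) := by
    unfold vs
    refine continuous_finsetSum _ fun m _ => ?_
    refine Continuous.mul ?_ ?_
    · exact ((pin_smpd hg m).continuous.comp (continuous_apply k)).sub
        ((pin_smpd hg m).continuous.comp (continuous_apply l))
    · fun_prop
  have hnull := poe_null hkl.ne
  have hI : Integrable (fun x : Cf n => vs g (x k) (x l) / nr (x k - x l) ^ 3 * v x ^ 2) := by
    refine B.mono' ?_ ?_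
    · have m1 : Measurable (fun x : Cf n => vs g (x k) (x l) / nr (x k - x l) ^ 3) := by
        have : Continuous (fun x : Cf n => nr (x k - x l) ^ 3) :=
          (poe_nr_cont.comp ((continuous_apply k).sub (continuous_apply l))).pow 3
        exact cvs.measurable.div this.measurable
      exact m1.aestronglyMeasurable.mul (hv.continuous.pow 2).aestronglyMeasurable
    · filter_upwards [hnull] with x hx
      have hpos : 0 < nr (x k - x l) := lt_of_le_of_ne (poe_nr_nonneg _) (Ne.symm hx)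
      rw [Real.norm_eq_abs, abs_mul, abs_div, abs_of_pos (pow_pos hpos 3),
        abs_of_nonneg (sq_nonneg (v x))]
      have h0 := hLs (x k) (x l)
      calc |vs g (x k) (x l)| / nr (x k - x l) ^ 3 * v x ^ 2 ≤
            L * nr (x k - x l) ^ 2 / nr (x k - x l) ^ 3 * v x ^ 2 := by gcongr
        _ = L * (1 / nr (x k - x l) * (v x * v x)) := by field_simp
  refine ⟨hI, ?_⟩
  have t2 := poe_lim hkl.ne c2 (poe_pi hkl c2 J2)
  have t3 : Tendsto (fun m : ℕ => ∫ x, vs g (x k) (x l) *
      poew k l (1 / ((m : ℝ) + 1)) x ^ 3 * v x ^ 2) atTop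
      (𝓝 (∫ x, vs g (x k) (x l) / nr (x k - x l) ^ 3 * v x ^ 2)) := by
    refine tendsto_integral_of_dominated_convergence
      (fun x => L * (1 / nr (x k - x l) * (v x * v x))) (fun m => ?_) B (fun m => ?_) ?_
    · have he : (0 : ℝ) < 1 / ((m : ℝ) + 1) := by positivity
      exact ((cvs.mul ((poew_cd k l he).continuous.pow 3)).mul
        (hv.continuous.pow 2)).aestronglyMeasurable
    · have he : (0 : ℝ) < 1 / ((m : ℝ) + 1) := by positivity
      filter_upwards [hnull] with x hx
      have hpos : 0 < nr (x k - x l) := lt_of_le_of_ne (poe_nr_nonneg _) (Ne.symm hx)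
      obtain ⟨w0, w1⟩ := vid_bd k l x he
      obtain ⟨w, hw⟩ : ∃ w, w = poew k l (1 / ((m : ℝ) + 1)) x := ⟨_, rfl⟩
      rw [← hw] at w0 w1 ⊢
      rw [Real.norm_eq_abs, abs_mul, abs_mul, abs_of_pos (pow_pos w0 3),
        abs_of_nonneg (sq_nonneg (v x))]
      have h0 := hLs (x k) (x l)
      have w2 : w ≤ 1 / nr (x k - x l) := by
        rw [le_div_iff₀ hpos]
        exact w1
      have w3 : (w * nr (x k - x l)) ^ 2 ≤ 1 := by
        have : 0 ≤ w * nr (x k - x l) := by positivity
        exact pow_le_one₀ this w1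
      calc |vs g (x k) (x l)| * w ^ 3 * v x ^ 2 ≤
            L * nr (x k - x l) ^ 2 * w ^ 3 * v x ^ 2 := by gcongr
        _ = L * (w * (w * nr (x k - x l)) ^ 2 * v x ^ 2) := by ring
        _ ≤ L * (1 / nr (x k - x l) * 1 * v x ^ 2) := by gcongr
        _ = L * (1 / nr (x k - x l) * (v x * v x)) := by ring
    · filter_upwards [hnull] with x hx
      have h0 := (((vid_tend hx).pow 3).const_mul (vs g (x k) (x l))).mul_const (v x ^ 2)
      rw [one_div, inv_pow, ← div_eq_mul_inv] at h0
      exact h0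
  have e : ∀ m : ℕ, ∫ x, poew k l (1 / ((m : ℝ) + 1)) x * (Pg g v x * v x) =
      1 / 2 * ∫ x, vs g (x k) (x l) * poew k l (1 / ((m : ℝ) + 1)) x ^ 3 * v x ^ 2 := by
    intro m
    have he : (0 : ℝ) < 1 / ((m : ℝ) + 1) := by positivity
    generalize 1 / ((m : ℝ) + 1) = s0 at he ⊢
    have hW : ContDiff ℝ (⊤ : ℕ∞) (poew k l s0) := poew_cd k l he
    have j := poe_id2 hPAN hg hv hvc hp rfl hW
    have a1 : ∫ x, poew k l s0 x * (Pg g v x * v x) = ∫ x, poew k l s0 x * Pg g v x * v x := by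
      congr 1
      funext x
      ring
    have a2 : ∫ x, poeD g (poew k l s0) x * v x ^ 2 =
        -∫ x, vs g (x k) (x l) * poew k l s0 x ^ 3 * v x ^ 2 := by
      rw [← integral_neg]
      congr 1
      funext x
      rw [poeD_w k l he x]
      unfold poeh vs
      rw [Fin.sum_univ_three]
      ring
    rw [a1]
    linarith
  have t4 := t3.const_mul (1 / 2 : ℝ)
  exact tendsto_nhds_unique t2 (t4.congr fun m => (e m).symm)

theorem vid_pt (g : R3 → ℝ) (a : R3) {s : ℝ} (hs : 0 < s) {y : R3} (hy : y - a ≠ 0) :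
    |pin_D g (pinM_U a s) y| ≤ Real.sqrt (grd g y) / nr (y - a) ^ 2 := by
  have ha := pin_nrpos hy
  have h1 : ∀ i, pd i (pinM_U a s) y = pd i (pin_U s) (y - a) := by
    intro i
    have e : pinM_U a s = fun z => pin_U s (z - a) := rfl
    unfold pd
    rw [e, fderiv_comp_sub]
  have h2 : (pin_D g (pinM_U a s) y) ^ 2 ≤ grd g y * (1 / nr (y - a) ^ 2) ^ 2 := by
    unfold pin_D grd
    simp only [h1]
    calc _ ≤ (∑ i, pd i g y ^ 2) * ∑ i, pd i (pin_U s) (y - a) ^ 2 :=
          Finset.sum_mul_sq_le_sq_mul_sq _ _ _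
      _ ≤ _ := mul_le_mul_of_nonneg_left (attL_grad hs hy)
          (Finset.sum_nonneg fun i _ => sq_nonneg _)
  have h3 : |pin_D g (pinM_U a s) y| ≤ Real.sqrt (grd g y * (1 / nr (y - a) ^ 2) ^ 2) :=
    Real.abs_le_sqrt h2
  have h4 : Real.sqrt (grd g y * (1 / nr (y - a) ^ 2) ^ 2) =
      Real.sqrt (grd g y) / nr (y - a) ^ 2 := by
    have hg0 : 0 ≤ grd g y := Finset.sum_nonneg fun i _ => sq_nonneg _
    rw [Real.sqrt_mul hg0, Real.sqrt_sq (by positivity)]
    ring
  rw [h4] at h3
  exact h3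

theorem vid_lim (g : R3 → ℝ) (a : R3) {y : R3} (hy : y - a ≠ 0) :
    Tendsto (fun j : ℕ => pin_D g (pinM_U a (1 / ((j : ℝ) + 1))) y) atTop
      (𝓝 (-vt g a y)) := by
  have ha := pin_nrpos hy
  have h1 : ∀ s : ℝ, 0 < s → pin_D g (pinM_U a s) y =
      ∑ i, pd i g y * (pin_A s (pin_q s (y - a)) * (2 * (y - a) i)) := by
    intro s hs
    unfold pin_D
    refine Finset.sum_congr rfl fun i _ => ?_
    have e : pinM_U a s = fun z => pin_U s (z - a) := rfl
    have e2 : pd i (pinM_U a s) y = pd i (pin_U s) (y - a) := by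
      unfold pd
      rw [e, fderiv_comp_sub]
    rw [e2, pin_pdU hs]
  have c1 : Continuous (fun s : ℝ => Real.sqrt (pin_q s (y - a))) := by
    unfold pin_q
    fun_prop
  have hne : Real.sqrt (pin_q 0 (y - a)) ≠ 0 := by
    rw [pin_qn]
    apply ne_of_gt
    apply Real.sqrt_pos.2
    positivity
  have c2 : ContinuousAt (fun s : ℝ => pin_f (pin_q s (y - a))) 0 :=
    c1.continuousAt.inv₀ hne
  have c3 : ContinuousAt (fun s : ℝ => ∑ i, pd i g y *
      (pin_A s (pin_q s (y - a)) * (2 * (y - a) i))) 0 := by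
    have c4 : ContinuousAt (fun s : ℝ => pin_A s (pin_q s (y - a))) 0 := by
      unfold pin_A
      have c5 : ContinuousAt (fun s : ℝ => 3 / 4 * s ^ 2) 0 := by fun_prop
      exact (continuousAt_const.mul (c2.pow 3)).sub (c5.mul (c2.pow 5))
    refine tendsto_finsetSum _ fun i _ => ?_
    exact (continuousAt_const.mul (c4.mul continuousAt_const))
  have h0 : ∑ i, pd i g y * (pin_A 0 (pin_q 0 (y - a)) * (2 * (y - a) i)) = -vt g a y := by
    have h2 : pin_A 0 (pin_q 0 (y - a)) = -(1 / 2) * (nr (y - a) ^ 3)⁻¹ := by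
      unfold pin_A pin_f
      rw [pin_qn]
      have : Real.sqrt (nr (y - a) ^ 2 + 0 ^ 2) = nr (y - a) := by
        rw [show nr (y - a) ^ 2 + (0 : ℝ) ^ 2 = nr (y - a) ^ 2 by ring]
        exact Real.sqrt_sq ha.le
      rw [this, inv_pow]
      ring
    unfold vt
    rw [h2, Finset.sum_div, ← Finset.sum_neg_distrib]
    refine Finset.sum_congr rfl fun i _ => ?_
    rw [Pi.sub_apply]
    ring
  rw [← h0]
  refine (c3.tendsto.comp tendsto_one_div_add_atTop_nhds_zero_nat).congr fun j => ?_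
  exact (h1 _ (by positivity)).symm

theorem vid_nuc (h1 : ST_IBP) (h2 : ST_HA3) (h3 : ST_INTM) {n : ℕ} {g : R3 → ℝ}
    (hg : ContDiff ℝ (⊤ : ℕ∞) g) (hc : HasCompactSupport g) (a : R3)
    {v : Cf n → ℝ} (hv : ContDiff ℝ (⊤ : ℕ∞) v) (hvc : HasCompactSupport v) :
    Integrable (fun x : Cf n => (∑ k, vt g a (x k)) * v x ^ 2) ∧
    ∫ x, (∑ k, 1 / nr (x k - a)) * (Pg g v x * v x) =
      1 / 2 * ∫ x, (∑ k, vt g a (x k)) * v x ^ 2 := by
  have hPAN : ST_PAN := Pool.Agent.Helper2.PW.st_PAN h1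
  have hSTB : ST_STB := Pool.Agent.Helper2.PW.st_STB
  obtain ⟨hp, hpc⟩ := poe_sm hSTB hg hv hvc
  have B := attL_int h2 a hg hc hv hvc
  have hb : ∀ y : R3, y - a ≠ 0 → |vt g a y| ≤ Real.sqrt (grd g y) / nr (y - a) ^ 2 := by
    intro y hy
    have := le_of_tendsto (vid_lim g a hy).abs
      (Eventually.of_forall fun j => vid_pt g a (by positivity) hy)
    rwa [abs_neg] at this
  have hI : Integrable (fun x : Cf n => (∑ k, vt g a (x k)) * v x ^ 2) := by
    refine B.mono' ?_ ?_
    · have m1 : Measurable (fun x : Cf n => ∑ k, vt g a (x k)) := by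
        refine Finset.measurable_fun_sum _ fun k _ => ?_
        have n1 : Continuous (fun x : Cf n => ∑ m, pd m g (x k) * (x k m - a m)) := by
          refine continuous_finsetSum _ fun m _ => ?_
          have q2 : Continuous (fun x : Cf n => x k m - a m) := by fun_prop
          exact ((pin_smpd hg m).continuous.comp (continuous_apply k)).mul q2
        have n2 : Continuous (fun x : Cf n => nr (x k - a) ^ 3) :=
          (poe_nr_cont.comp ((continuous_apply k).sub continuous_const)).pow 3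
        exact n1.measurable.div n2.measurable
      exact m1.aestronglyMeasurable.mul (hv.continuous.pow 2).aestronglyMeasurable
    · filter_upwards [pinM_ae n a] with x hx
      rw [Real.norm_eq_abs, abs_mul, abs_of_nonneg (sq_nonneg (v x))]
      refine mul_le_mul_of_nonneg_right ?_ (sq_nonneg _)
      refine (Finset.abs_sum_le_sum_abs _ _).trans ?_
      exact Finset.sum_le_sum fun k _ => hb (x k) (hx k)
  refine ⟨hI, ?_⟩
  have t1 := pinM_lim h3 a hp hpc hv hvc
  have t2 : Tendsto (fun j : ℕ => ∫ x, pin_S (pin_D g (pinM_U a (1 / ((j : ℝ) + 1)))) x *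
      v x ^ 2) atTop (𝓝 (∫ x, (∑ k, -vt g a (x k)) * v x ^ 2)) := by
    refine tendsto_integral_of_dominated_convergence
      (fun x => (∑ k, Real.sqrt (grd g (x k)) / nr (x k - a) ^ 2) * v x ^ 2)
      (fun j => ?_) B (fun j => ?_) ?_
    · have he : (0 : ℝ) < 1 / ((j : ℝ) + 1) := by positivity
      exact (((pin_smS (n := n) (pin_smD hg (pinM_smU a he))).continuous).mul
        (hv.continuous.pow 2)).aestronglyMeasurable
    · have he : (0 : ℝ) < 1 / ((j : ℝ) + 1) := by positivity
      filter_upwards [pinM_ae n a] with x hx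
      rw [Real.norm_eq_abs, abs_mul, abs_of_nonneg (sq_nonneg (v x))]
      refine mul_le_mul_of_nonneg_right ?_ (sq_nonneg _)
      unfold pin_S
      refine (Finset.abs_sum_le_sum_abs _ _).trans ?_
      exact Finset.sum_le_sum fun k _ => vid_pt g a he (hx k)
    · filter_upwards [pinM_ae n a] with x hx
      refine Tendsto.mul_const _ ?_
      unfold pin_S
      exact tendsto_finsetSum _ fun k _ => vid_lim g a (hx k)
  have e : ∀ j : ℕ, ∫ x, pin_S (pinM_U a (1 / ((j : ℝ) + 1))) x * (Pg g v x * v x) =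
      -(1 / 2) * ∫ x, pin_S (pin_D g (pinM_U a (1 / ((j : ℝ) + 1)))) x * v x ^ 2 := by
    intro j
    have he : (0 : ℝ) < 1 / ((j : ℝ) + 1) := by positivity
    exact attL_id hPAN hSTB hg (pinM_smU a he) hv hvc
  have t3 := t2.const_mul (-(1 / 2) : ℝ)
  have t4 := tendsto_nhds_unique t1 (t3.congr fun m => (e m).symm)
  rw [t4]
  have e2 : ∫ x, (∑ k, -vt g a (x k)) * v x ^ 2 = -∫ x, (∑ k, vt g a (x k)) * v x ^ 2 := by
    rw [← integral_neg]
    congr 1
    funext x
    rw [Finset.sum_neg_distrib]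
    ring
  rw [e2]
  ring

theorem VID (h1 : ST_IBP) (_h2 : ST_HA2) (h3 : ST_HA3) (h4 : ST_INT) (h5 : ST_INTM) :
    ST_VID := by
  intro n M X Z g u hg hc hu
  have key : ∀ s, Integrable (fun x : Cf n => Vir X Z g x * u s x ^ 2) ∧
      ∫ x, (rep x - ∑ k, pot X Z (x k)) * (Pg g (u s) x * u s x) =
        ∫ x, Vir X Z g x * u s x ^ 2 := by
    intro s
    obtain ⟨hv, hvc⟩ := hu s
    obtain ⟨hp, hpc⟩ := poe_sm Pool.Agent.Helper2.PW.st_STB hg hv hvc
    generalize u s = v at hv hvc hp hpc ⊢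
    have hpr : ∀ k l : Fin n, k < l → _ := fun k l hkl => vid_pair h1 h4 hg hc hkl hv hvc
    have hnu : ∀ j : Fin M, _ := fun j => vid_nuc h1 h3 h5 hg hc (X j) hv hvc
    have e1 : ∀ x : Cf n, Vir X Z g x * v x ^ 2 =
        1 / 2 * (∑ k, ∑ l, if k < l then vs g (x k) (x l) / nr (x k - x l) ^ 3 * v x ^ 2
          else 0) - 1 / 2 * ∑ j, Z j * ((∑ k, vt g (X j) (x k)) * v x ^ 2) := by
      intro x
      have a1 : (∑ k, ∑ l, if k < l then vs g (x k) (x l) / nr (x k - x l) ^ 3 * v x ^ 2
          else 0) = (∑ k, ∑ l, if k < l then vs g (x k) (x l) / nr (x k - x l) ^ 3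
          else 0) * v x ^ 2 := by
        rw [Finset.sum_mul]
        refine Finset.sum_congr rfl fun k _ => ?_
        rw [Finset.sum_mul]
        refine Finset.sum_congr rfl fun l _ => ?_
        split_ifs
        · rfl
        · exact (zero_mul _).symm
      have a2 : ∑ j, Z j * ((∑ k, vt g (X j) (x k)) * v x ^ 2) =
          (∑ k, ∑ j, Z j * vt g (X j) (x k)) * v x ^ 2 := by
        rw [Finset.sum_comm, Finset.sum_mul]
        refine Finset.sum_congr rfl fun j _ => ?_
        rw [← Finset.mul_sum]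
        ring
      have a3 : Vir X Z g x =
          1 / 2 * (∑ k, ∑ l, if k < l then vs g (x k) (x l) / nr (x k - x l) ^ 3 else 0) -
          1 / 2 * ∑ k, ∑ j, Z j * vt g (X j) (x k) := rfl
      rw [a1, a2, a3]
      ring
    have IA0 : ∀ k l : Fin n, Integrable (fun x : Cf n =>
        if k < l then vs g (x k) (x l) / nr (x k - x l) ^ 3 * v x ^ 2 else 0) := by
      intro k l
      split_ifs with hkl
      · exact (hpr k l hkl).1
      · exact integrable_zero _ _ _
    have IA : Integrable (fun x : Cf n => ∑ k, ∑ l,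
        if k < l then vs g (x k) (x l) / nr (x k - x l) ^ 3 * v x ^ 2 else 0) :=
      integrable_finsetSum _ fun k _ => integrable_finsetSum _ fun l _ => IA0 k l
    have IB : Integrable (fun x : Cf n => ∑ j, Z j * ((∑ k, vt g (X j) (x k)) * v x ^ 2)) :=
      integrable_finsetSum _ fun j _ => (hnu j).1.const_mul _
    refine ⟨((IA.const_mul _).sub (IB.const_mul _)).congr
      (ae_of_all _ fun x => (e1 x).symm), ?_⟩
    -- right hand side
    have r1 : ∫ x, Vir X Z g x * v x ^ 2 =
        1 / 2 * (∑ k : Fin n, ∑ l : Fin n, if k < l then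
          ∫ x : Cf n, vs g (x k) (x l) / nr (x k - x l) ^ 3 * v x ^ 2 else 0) -
        1 / 2 * ∑ j, Z j * ∫ x : Cf n, (∑ k, vt g (X j) (x k)) * v x ^ 2 := by
      simp only [e1]
      rw [integral_sub (IA.const_mul _) (IB.const_mul _), integral_const_mul,
        integral_const_mul, integral_finsetSum _ fun k _ => integrable_finsetSum _ fun l _ =>
        IA0 k l, integral_finsetSum _ fun j _ => (hnu j).1.const_mul _]
      congr 2
      · refine Finset.sum_congr rfl fun k _ => ?_
        rw [integral_finsetSum _ fun l _ => IA0 k l]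
        refine Finset.sum_congr rfl fun l _ => ?_
        split_ifs
        · rfl
        · exact integral_zero _ _
      · refine Finset.sum_congr rfl fun j _ => ?_
        exact integral_const_mul _ _
    -- left hand side
    obtain ⟨i1, i2, -, -⟩ := h5 n M X Z _ _ hp hpc hv hvc
    have l0 : ∀ x : Cf n, (rep x - ∑ k, pot X Z (x k)) * (Pg g v x * v x) =
        rep x * (Pg g v x * v x) - (∑ k, pot X Z (x k)) * (Pg g v x * v x) := by
      intro x
      ring
    have l1 : ∫ x : Cf n, (∑ k, pot X Z (x k)) * (Pg g v x * v x) =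
        ∑ j, Z j * ∫ x : Cf n, (∑ k, 1 / nr (x k - X j)) * (Pg g v x * v x) := by
      have e3 : ∀ x : Cf n, (∑ k, pot X Z (x k)) * (Pg g v x * v x) =
          ∑ j, Z j * ((∑ k, 1 / nr (x k - X j)) * (Pg g v x * v x)) := by
        intro x
        unfold pot
        rw [Finset.sum_comm, Finset.sum_mul]
        refine Finset.sum_congr rfl fun j _ => ?_
        rw [← mul_assoc (Z j), Finset.mul_sum]
        congr 1
        refine Finset.sum_congr rfl fun k _ => ?_
        ring
      simp only [e3]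
      rw [integral_finsetSum _ fun j _ => (pinM_int h5 (X j) hp hpc hv hvc).const_mul _]
      refine Finset.sum_congr rfl fun j _ => ?_
      exact integral_const_mul _ _
    have c2 : Continuous (fun x => Pg g v x * v x) := hp.continuous.mul hv.continuous
    simp only [l0]
    rw [integral_sub i2 i1, l1, poe_sum c2 i2, r1]
    congr 1
    · rw [Finset.mul_sum]
      refine Finset.sum_congr rfl fun k _ => ?_
      rw [Finset.mul_sum]
      refine Finset.sum_congr rfl fun l _ => ?_
      split_ifs with hkl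
      · exact (hpr k l hkl).2
      · ring
    · rw [Finset.mul_sum]
      refine Finset.sum_congr rfl fun j _ => ?_
      rw [(hnu j).2]
      ring
  exact ⟨fun s => (key s).1, Finset.sum_congr rfl fun s _ => (key s).2⟩

end Pool.Agent.Helper8.LN
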